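import Pool.Agent.Lib.MP_a19cb6_nt.Total

/-!
# MP_a19cb6_nt: Wolf's formula for the generalized Brun constants is false (at `h = 6`)
-/

namespace Pool.Agent.Results.MP_a19cb6_nt.WolfFormulaFails

open Finset
open scoped ENNReal

/-- `(p, p + h)` is an `h`-gap pair: `p` and `p + h` are consecutive primes. -/
def IsGapPair (h p : ℕ) : Prop :=
  p.Prime ∧ (p + h).Prime ∧ ∀ m : ℕ, p < m → m < p + h → ¬ m.Prime

/-- The generalized Brun constant `B̃_h`: the sum of `1/p + 1/(p+h)` over all `h`-gap pairs, as an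
element of `[0, ∞]`. -/
noncomputable def brunConst (h : ℕ) : ℝ≥0∞ :=
  ∑' p : {p : ℕ // IsGapPair h p}, ENNReal.ofReal (1 / ((p : ℕ) : ℝ) + 1 / (((p : ℕ) : ℝ) + h))

/-- The twin prime constant, a product over the odd primes. -/
noncomputable def twinConst : ℝ :=
  ∏' p : {p : ℕ // p.Prime ∧ 2 < p}, (1 - 1 / (((p : ℕ) : ℝ) - 1) ^ 2)

/-- The right-hand side of Wolf's formula. -/
noncomputable def wolfValue (h : ℕ) : ℝ :=
  4 * twinConst / h * ∏ p ∈ h.primeFactors with 2 < p, ((p : ℝ) - 1) / ((p : ℝ) - 2)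

theorem wolfValue_six : wolfValue 6 = 4 / 3 * twinConst := by
  have h : (Nat.primeFactors 6).filter (fun p => 2 < p) = {3} := by decide +kernel
  unfold wolfValue
  rw [h, Finset.prod_singleton]
  push_cast
  ring

theorem gterm_eq (p : ℕ) (hp : IsGapPair 6 p) :
    Wolf6.gterm p = 1 / (p : ℝ) + 1 / ((p : ℝ) + 6) := by
  rw [Wolf6.gterm_of_gap hp]
  push_cast
  rfl

theorem wolf_lt : wolfValue 6 < ∑ p ∈ range 310640640, Wolf6.gterm p := by
  have h1 : wolfValue 6 ≤ 880484815731945 / 10 ^ 15 := by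
    rw [wolfValue_six]
    exact Wolf6.twin_le
  have h2 : ((880484815731946 : ℕ) : ℝ) / 10 ^ 15 ≤ ∑ p ∈ range (30 * 10354688), Wolf6.gterm p :=
    Wolf6.total
  rw [show 30 * 10354688 = 310640640 by norm_num] at h2
  refine lt_of_le_of_lt h1 (lt_of_lt_of_le ?_ h2)
  push_cast
  norm_num

open Classical in
theorem sum_gterm (N : ℕ) : ∑ p ∈ range N, Wolf6.gterm p =
    ∑ p ∈ range N with IsGapPair 6 p, (1 / (p : ℝ) + 1 / ((p : ℝ) + 6)) := by
  rw [Finset.sum_filter]
  refine Finset.sum_congr rfl fun p _ => ?_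
  by_cases hp : IsGapPair 6 p
  · rw [if_pos hp, gterm_eq p hp]
  · rw [if_neg hp]
    exact if_neg hp

theorem ofReal_le_brun (N : ℕ) :
    ENNReal.ofReal (∑ p ∈ range N, Wolf6.gterm p) ≤ brunConst 6 := by
  classical
  rw [sum_gterm N]
  rw [ENNReal.ofReal_sum_of_nonneg (fun p _ => by positivity)]
  have h2 : ∑ p ∈ range N with IsGapPair 6 p, ENNReal.ofReal (1 / (p : ℝ) + 1 / ((p : ℝ) + 6)) =
      ∑ p ∈ ((range N).filter (fun p => IsGapPair 6 p)).subtype (fun p => IsGapPair 6 p),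
        ENNReal.ofReal (1 / ((p : ℕ) : ℝ) + 1 / (((p : ℕ) : ℝ) + 6)) :=
    (Finset.sum_subtype_of_mem (p := fun p => IsGapPair 6 p)
      (fun p : ℕ => ENNReal.ofReal (1 / (p : ℝ) + 1 / ((p : ℝ) + 6)))
      (fun p hp => (Finset.mem_filter.1 hp).2)).symm
  rw [h2]
  unfold brunConst
  exact ENNReal.sum_le_tsum _

theorem ofReal_wolf_lt (N : ℕ) (h : wolfValue 6 < ∑ p ∈ range N, Wolf6.gterm p)
    (hpos : 0 < ∑ p ∈ range N, Wolf6.gterm p) : ENNReal.ofReal (wolfValue 6) < brunConst 6 :=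
  lt_of_lt_of_le ((ENNReal.ofReal_lt_ofReal_iff hpos).2 h) (ofReal_le_brun N)

theorem wolf_lt_brun : ENNReal.ofReal (wolfValue 6) < brunConst 6 := by
  refine ofReal_wolf_lt _ wolf_lt ?_
  refine lt_of_lt_of_le ?_ Wolf6.total
  push_cast
  norm_num

open Classical in
/-- Wolf's formula fails at `h = 6`: the product defining the twin prime constant converges, the
sum over the 6-gap pairs with `p < 310640640` alone already exceeds the right-hand side of the
formula, so `B̃_6` is larger than the right-hand side, and the formula does not hold for all even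
`h ≥ 6`. -/
theorem result :
    Multipliable (fun p : {p : ℕ // p.Prime ∧ 2 < p} => 1 - 1 / (((p : ℕ) : ℝ) - 1) ^ 2) ∧
    wolfValue 6 <
      ∑ p ∈ range 310640640 with IsGapPair 6 p, (1 / (p : ℝ) + 1 / ((p : ℝ) + 6)) ∧
    ENNReal.ofReal (wolfValue 6) < brunConst 6 ∧
    ¬ ∀ h : ℕ, Even h → 6 ≤ h → brunConst h = ENNReal.ofReal (wolfValue h) := by
  refine ⟨Wolf6.multipliable_tf, (sum_gterm _) ▸ wolf_lt, wolf_lt_brun, ?_⟩
  intro hall
  have h := hall 6 (by decide) le_rfl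
  exact absurd h wolf_lt_brun.ne'

end Pool.Agent.Results.MP_a19cb6_nt.WolfFormulaFails
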